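import Pool.Agent.Helper69.RK.StE

/-!
Kaimanovich-Vershik inequality for several nearly independent summands (module E10).
-/

namespace Pool.Agent.Helper69.RK

open Finset

noncomputable section

theorem e10_mono (h2 : ST_E2) {Ω α α' γ : Type} [Fintype Ω] (μ : Ω → ℝ) (hμ : ∀ ω, 0 ≤ μ ω)
    (f : Ω → α) (f' : Ω → α') (g : Ω → γ)
    (hd : ∀ ω ω', μ ω ≠ 0 → μ ω' ≠ 0 → f' ω = f' ω' → g ω = g ω' → f ω = f ω') :
    CH μ f g ≤ CH μ f' g := by
  refine h2.1 Ω α α' γ μ f f' g hμ ?_
  intro ω ω' h h' he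
  exact hd ω ω' h h' (congrArg Prod.fst he) (congrArg Prod.snd he)

theorem e10_sub (h1 : ST_E1) (h2 : ST_E2) {Ω α γ : Type} [Fintype Ω] (μ : Ω → ℝ)
    (hμ : ∀ ω, 0 ≤ μ ω) (G : Ω → γ) : ∀ (r : ℕ) (A : Fin r → Ω → α),
    CH μ (fun ω b => A b ω) G ≤ ∑ b, CH μ (A b) G := by
  intro r
  induction r with
  | zero =>
    intro A
    have h : CH μ (fun ω (b : Fin 0) => A b ω) G = 0 := by
      refine h2.2.2 Ω _ γ μ _ G hμ ?_
      intro ω ω' _ _ _
      exact Subsingleton.elim _ _
    rw [h]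
    simp
  | succ r ih =>
    intro A
    have ha : CH μ (fun ω b => A b ω) G ≤
        CH μ (fun ω => ((fun b : Fin r => A b.castSucc ω), A (Fin.last r) ω)) G := by
      refine e10_mono h2 μ hμ _ _ G ?_
      intro ω ω' _ _ he _
      funext b
      refine Fin.lastCases ?_ (fun i => ?_) b
      · exact congrArg Prod.snd he
      · exact congrFun (congrArg Prod.fst he) i
    have hb := (h1 Ω _ _ γ μ (fun ω => (fun b : Fin r => A b.castSucc ω))
      (fun ω => A (Fin.last r) ω) G hμ).2.1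
    have hc := (h1 Ω _ _ γ μ (fun ω => A (Fin.last r) ω)
      (fun ω => (fun b : Fin r => A b.castSucc ω)) G hμ).2.2
    have hd := ih (fun b => A b.castSucc)
    rw [Fin.sum_univ_castSucc]
    have he : CH μ (A (Fin.last r)) G = CH μ (fun ω => A (Fin.last r) ω) G := rfl
    rw [he]
    linarith

theorem st_E10 (h1 : ST_E1) (h2 : ST_E2) : ST_E10 := by
  intro Ω 𝔾 α γ _ _ r
  induction r with
  | zero =>
    intro μ X A L G ε hμ hL hA
    have h : (fun ω => X ω - ∑ b : Fin 0, L b ω) = X := by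
      funext ω
      simp
    rw [h]
    simp
  | succ r ih =>
    intro μ X A L G ε hμ hL hA
    set A' : Ω → Fin r → α := fun ω b => A b.castSucc ω with hA'
    set B : Ω → α := fun ω => A (Fin.last r) ω with hB
    set V : Ω → 𝔾 := fun ω => L (Fin.last r) ω with hV
    set Y : Ω → 𝔾 := fun ω => X ω - ∑ b : Fin r, L b.castSucc ω with hY
    -- the total entropy
    have e1 : CH μ (fun ω b => A b ω) (fun ω => (X ω, G ω)) ≤
        CH μ (fun ω => (B ω, A' ω)) (fun ω => (X ω, G ω)) := by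
      refine e10_mono h2 μ hμ _ _ _ ?_
      intro ω ω' _ _ he _
      funext b
      refine Fin.lastCases ?_ (fun i => ?_) b
      · exact congrArg Prod.fst he
      · exact congrFun (congrArg Prod.snd he) i
    have e2 := (h1 Ω _ _ _ μ B A' (fun ω => (X ω, G ω)) hμ).2.1
    have e3 : CH μ (fun ω => (B ω, A' ω)) (fun ω => (X ω, G ω)) ≤
        CH μ (fun ω => (A' ω, B ω)) (fun ω => (X ω, G ω)) := by
      refine e10_mono h2 μ hμ _ _ _ ?_
      intro ω ω' _ _ he _
      exact Prod.ext (congrArg Prod.snd he) (congrArg Prod.fst he)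
    have e4 := (h1 Ω _ _ _ μ A' B (fun ω => (X ω, G ω)) hμ).2.1
    -- conditioning
    have e5 := (h1 Ω _ _ _ μ B A' (fun ω => (X ω, G ω)) hμ).2.2
    have e6 := (h1 Ω _ _ _ μ B X G hμ).2.2
    have e7 := (h1 Ω _ _ _ μ A' X G hμ).2.2
    have e8 := e10_sub h1 h2 μ hμ G r (fun b => A b.castSucc)
    have e8' : CH μ A' G ≤ ∑ b : Fin r, CH μ (A b.castSucc) G := e8
    rw [Fin.sum_univ_castSucc] at hA
    have eB : CH μ (A (Fin.last r)) G = CH μ B G := rfl
    rw [eB] at hA
    -- induction hypothesis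
    have hi : CH μ (fun ω => X ω - ∑ b : Fin r, L b.castSucc ω) G ≤
        CH μ X G + (∑ b : Fin r, (CH μ (fun ω => X ω - L b.castSucc ω) G - CH μ X G)) +
          3 * r * ε := by
      refine ih μ X (fun b => A b.castSucc) (fun b => L b.castSucc) G ε hμ
        (fun b => hL b.castSucc) ?_
      have : CH μ (fun ω (b : Fin r) => A b.castSucc ω) (fun ω => (X ω, G ω)) =
        CH μ A' (fun ω => (X ω, G ω)) := rfl
      rw [this]
      linarith
    -- first information
    have i1 : CH μ B G - CH μ B (fun ω => (X ω, G ω)) ≤ ε := by linarith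
    -- second information
    have i2 : CH μ A' G - CH μ A' (fun ω => (B ω, (X ω, G ω))) ≤ ε := by linarith
    -- `H(X | G) - H(X | V, G) ≤ ε`
    have c1 := (h1 Ω _ _ _ μ X B G hμ).2.1
    have c2 := (h1 Ω _ _ _ μ B X G hμ).2.1
    have c3 : CH μ (fun ω => (X ω, B ω)) G ≤ CH μ (fun ω => (B ω, X ω)) G := by
      refine e10_mono h2 μ hμ _ _ _ ?_
      intro ω ω' _ _ he _
      exact Prod.ext (congrArg Prod.snd he) (congrArg Prod.fst he)
    have c4 : CH μ X (fun ω => (B ω, G ω)) ≤ CH μ X (fun ω => (V ω, G ω)) := by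
      refine h2.2.1 Ω _ _ _ μ X _ _ hμ ?_
      intro ω ω' h h' he
      have hg : G ω = G ω' := congrArg Prod.snd he
      exact Prod.ext (hL (Fin.last r) ω ω' h h' he) hg
    have i3 : CH μ X G - CH μ X (fun ω => (V ω, G ω)) ≤ ε := by linarith
    -- `H(Y - V | G)`
    have hfun : (fun ω => X ω - ∑ b : Fin (r + 1), L b ω) = fun ω => Y ω - V ω := by
      funext ω
      rw [Fin.sum_univ_castSucc]
      simp only [hY, hV]
      abel
    rw [hfun]
    set W : Ω → 𝔾 := fun ω => Y ω - V ω with hW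
    set U : Ω → 𝔾 := fun ω => X ω - V ω with hU
    have d1 := (h1 Ω _ _ _ μ W V G hμ).2.1
    have d2 := (h1 Ω _ _ _ μ V W G hμ).2.1
    have d3 : CH μ (fun ω => (W ω, V ω)) G ≤ CH μ (fun ω => (V ω, W ω)) G := by
      refine e10_mono h2 μ hμ _ _ _ ?_
      intro ω ω' _ _ he _
      exact Prod.ext (congrArg Prod.snd he) (congrArg Prod.fst he)
    have d4 : CH μ W (fun ω => (V ω, G ω)) ≤ CH μ Y (fun ω => (V ω, G ω)) := by
      refine e10_mono h2 μ hμ _ _ _ ?_
      intro ω ω' _ _ he hg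
      have hv : V ω = V ω' := congrArg Prod.fst hg
      change Y ω - V ω = Y ω' - V ω'
      rw [he, hv]
    have d5 := (h1 Ω _ _ _ μ Y V G hμ).2.2
    have d6 : CH μ V (fun ω => (A' ω, (U ω, G ω))) ≤ CH μ V (fun ω => (W ω, G ω)) := by
      refine h2.2.1 Ω _ _ _ μ V _ _ hμ ?_
      intro ω ω' h h' he
      have hg : G ω = G ω' := congrArg (fun q => q.2.2) he
      have hu : U ω = U ω' := congrArg (fun q => q.2.1) he
      have ha : A' ω = A' ω' := congrArg Prod.fst he
      have hl : ∀ b : Fin r, L b.castSucc ω = L b.castSucc ω' := fun b =>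
        hL b.castSucc ω ω' h h' (Prod.ext (congrFun ha b) hg)
      have hw : ∀ ω, W ω = U ω - ∑ b : Fin r, L b.castSucc ω := by
        intro ω
        simp only [hW, hU, hY]
        abel
      refine Prod.ext ?_ hg
      change W ω = W ω'
      rw [hw, hw, hu]
      congr 1
      exact Finset.sum_congr rfl fun b _ => hl b
    have d7a := (h1 Ω _ _ _ μ V A' (fun ω => (U ω, G ω)) hμ).2.1
    have d7b := (h1 Ω _ _ _ μ A' V (fun ω => (U ω, G ω)) hμ).2.1
    have d7c : CH μ (fun ω => (V ω, A' ω)) (fun ω => (U ω, G ω)) ≤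
        CH μ (fun ω => (A' ω, V ω)) (fun ω => (U ω, G ω)) := by
      refine e10_mono h2 μ hμ _ _ _ ?_
      intro ω ω' _ _ he _
      exact Prod.ext (congrArg Prod.snd he) (congrArg Prod.fst he)
    have d8 := (h1 Ω _ _ _ μ A' U G hμ).2.2
    have d9 : CH μ A' (fun ω => (B ω, (X ω, G ω))) ≤ CH μ A' (fun ω => (V ω, (U ω, G ω))) := by
      refine h2.2.1 Ω _ _ _ μ A' _ _ hμ ?_
      intro ω ω' h h' he
      have hg : G ω = G ω' := congrArg (fun q => q.2.2) he
      have hx : X ω = X ω' := congrArg (fun q => q.2.1) he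
      have hb : B ω = B ω' := congrArg Prod.fst he
      have hv : V ω = V ω' := hL (Fin.last r) ω ω' h h' (Prod.ext hb hg)
      have hu : U ω = U ω' := by
        change X ω - V ω = X ω' - V ω'
        rw [hx, hv]
      exact Prod.ext hv (Prod.ext hu hg)
    have d10a := (h1 Ω _ _ _ μ V U G hμ).2.1
    have d10b := (h1 Ω _ _ _ μ U V G hμ).2.1
    have d10c : CH μ (fun ω => (V ω, U ω)) G ≤ CH μ (fun ω => (U ω, V ω)) G := by
      refine e10_mono h2 μ hμ _ _ _ ?_
      intro ω ω' _ _ he _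
      exact Prod.ext (congrArg Prod.snd he) (congrArg Prod.fst he)
    have d11 : CH μ X (fun ω => (V ω, G ω)) ≤ CH μ U (fun ω => (V ω, G ω)) := by
      refine e10_mono h2 μ hμ _ _ _ ?_
      intro ω ω' _ _ he hg
      have hv : V ω = V ω' := congrArg Prod.fst hg
      have he' : X ω - V ω = X ω' - V ω' := he
      rw [hv] at he'
      exact sub_left_injective he'
    have hε : 0 ≤ ε := by linarith
    have hfin : CH μ W G ≤ CH μ Y G + (CH μ U G - CH μ X G) + 2 * ε := by linarith
    rw [Fin.sum_univ_castSucc]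
    have hUe : CH μ (fun ω => X ω - L (Fin.last r) ω) G = CH μ U G := rfl
    rw [hUe]
    push_cast
    linarith

end

end Pool.Agent.Helper69.RK
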