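import Pool.Agent.Helper96.RK.E2
import Pool.Agent.Helper70.RK.E5

/-! Entropy library, module E8: several conditionally independent copies. -/

namespace Pool.Agent.Helper69.RK

open Finset

noncomputable section

open Classical in
/-- weights of `S + 1` conditionally independent copies given `G` -/
def e8cop {Ω γ : Type} [Fintype Ω] (μ : Ω → ℝ) (G : Ω → γ) (S : ℕ) : (Fin (S + 1) → Ω) → ℝ :=
  fun w => if ∀ r, G (w r) = G (w 0) then (∏ r, μ (w r)) / (pr μ G (w 0)) ^ S else 0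

theorem e8_supp {Ω γ : Type} [Fintype Ω] (μ : Ω → ℝ) (G : Ω → γ) (S : ℕ) (w : Fin (S + 1) → Ω)
    (h : e8cop μ G S w ≠ 0) : (∀ r, G (w r) = G (w 0)) ∧ ∀ r, μ (w r) ≠ 0 := by
  classical
  unfold e8cop at h
  by_cases h1 : ∀ r, G (w r) = G (w 0)
  · refine ⟨h1, fun r hr => h ?_⟩
    rw [if_pos h1, Finset.prod_eq_zero (Finset.mem_univ r) hr, zero_div]
  · rw [if_neg h1] at h
    exact absurd rfl h

theorem e8_nn {Ω γ : Type} [Fintype Ω] (μ : Ω → ℝ) (hμ : ∀ ω, 0 ≤ μ ω) (G : Ω → γ) (S : ℕ)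
    (w : Fin (S + 1) → Ω) : 0 ≤ e8cop μ G S w := by
  classical
  unfold e8cop
  split_ifs
  · exact div_nonneg (Finset.prod_nonneg fun r _ => hμ _) (pow_nonneg (e1_pr_nonneg μ G hμ _) _)
  · exact le_rfl

open Classical in
/-- mass of an event -/
def e8m {Ω : Type} [Fintype Ω] (μ : Ω → ℝ) (p : Ω → Prop) : ℝ := ∑ ω, if p ω then μ ω else 0

theorem e8m_congr {Ω : Type} [Fintype Ω] (μ : Ω → ℝ) (p p' : Ω → Prop) (h : ∀ ω, p ω ↔ p' ω) :
    e8m μ p = e8m μ p' := by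
  have : p = p' := funext fun ω => propext (h ω)
  rw [this]

theorem e8m_pr {Ω α : Type} [Fintype Ω] (μ : Ω → ℝ) (f : Ω → α) (ω : Ω) :
    pr μ f ω = e8m μ (fun ω' => f ω' = f ω) := by
  classical
  rw [e1_pr_eq]
  unfold e8m
  refine Finset.sum_congr rfl fun ω' _ => ?_
  by_cases h : f ω' = f ω
  · simp [h]
  · simp [h]

theorem e8m_single {Ω : Type} [Fintype Ω] (μ : Ω → ℝ) (p : Ω → Prop) (ω : Ω) (hp : p ω)
    (h : ∀ ω', p ω' → ω' = ω) : e8m μ p = μ ω := by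
  classical
  unfold e8m
  rw [Finset.sum_eq_single ω]
  · rw [if_pos hp]
  · intro ω' _ hne
    exact if_neg fun h1 => hne (h ω' h1)
  · intro h3
    exact absurd (Finset.mem_univ _) h3

theorem e8_sum {Ω γ : Type} [Fintype Ω] (μ : Ω → ℝ) (G : Ω → γ) (S : ℕ) (c : γ)
    (q : Fin (S + 1) → Ω → Prop) :
    e8m (e8cop μ G S) (fun w => (∀ r, q r (w r)) ∧ G (w 0) = c) =
      (∏ r, e8m μ (fun ω => G ω = c ∧ q r ω)) / (e8m μ (fun ω => G ω = c)) ^ S := by
  classical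
  unfold e8m
  rw [Finset.prod_univ_sum, Fintype.piFinset_univ, Finset.sum_div]
  refine Finset.sum_congr rfl fun w _ => ?_
  by_cases h : (∀ r, q r (w r)) ∧ G (w 0) = c
  · rw [if_pos h]
    by_cases h2 : ∀ r, G (w r) = G (w 0)
    · have h3 : e8cop μ G S w = (∏ r, μ (w r)) / (pr μ G (w 0)) ^ S := if_pos h2
      rw [h3]
      congr 1
      · refine Finset.prod_congr rfl fun r _ => ?_
        rw [if_pos ⟨(h2 r).trans h.2, h.1 r⟩]
      · rw [e8m_pr, h.2]
        rfl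
    · have h3 : e8cop μ G S w = 0 := if_neg h2
      push Not at h2
      obtain ⟨r, hr⟩ := h2
      rw [h3, Finset.prod_eq_zero (Finset.mem_univ r), zero_div]
      refine if_neg ?_
      rintro ⟨h4, _⟩
      exact hr (h4.trans h.2.symm)
  · rw [if_neg h]
    by_cases h4 : G (w 0) = c
    · have h5 : ¬ ∀ r, q r (w r) := fun h5 => h ⟨h5, h4⟩
      push Not at h5
      obtain ⟨r, hr⟩ := h5
      rw [Finset.prod_eq_zero (Finset.mem_univ r) (if_neg fun h6 => hr h6.2), zero_div]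
    · rw [Finset.prod_eq_zero (Finset.mem_univ (0 : Fin (S + 1)))
        (if_neg fun h6 => h4 h6.1), zero_div]

/-- events that agree on the support have the same mass -/
theorem e8m_supp {Ω : Type} [Fintype Ω] (μ : Ω → ℝ) (p p' : Ω → Prop)
    (h : ∀ ω, μ ω ≠ 0 → (p ω ↔ p' ω)) : e8m μ p = e8m μ p' := by
  classical
  unfold e8m
  refine Finset.sum_congr rfl fun ω _ => ?_
  by_cases h0 : μ ω = 0
  · rw [h0, ite_self, ite_self]
  · by_cases h1 : p ω
    · rw [if_pos h1, if_pos ((h ω h0).1 h1)]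
    · rw [if_neg h1, if_neg fun h2 => h1 ((h ω h0).2 h2)]

theorem e8_push {Ω γ : Type} [Fintype Ω] (μ : Ω → ℝ) (hμ : ∀ ω, 0 ≤ μ ω) (G : Ω → γ) (S : ℕ)
    (r : Fin (S + 1)) : push (fun w : Fin (S + 1) → Ω => w r) (e8cop μ G S) = μ := by
  classical
  funext ω
  have h0 : push (fun w : Fin (S + 1) → Ω => w r) (e8cop μ G S) ω =
      e8m (e8cop μ G S) (fun w => w r = ω) := by
    unfold push e8m
    refine Finset.sum_congr rfl fun w _ => ?_
    by_cases h : w r = ω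
    · simp [h]
    · simp [h]
  have h1 : e8m (e8cop μ G S) (fun w => w r = ω) = e8m (e8cop μ G S)
      (fun w => (∀ r', (r' = r → w r' = ω)) ∧ G (w 0) = G ω) := by
    refine e8m_supp _ _ _ fun w hw => ?_
    constructor
    · intro h
      have h2 := (e8_supp μ G S w hw).1 r
      refine ⟨?_, by rw [← h2, h]⟩
      rintro r' rfl
      exact h
    · rintro ⟨h2, _⟩
      exact h2 r rfl
  rw [h0, h1, e8_sum μ G S (G ω) (fun r' ω' => (r' = r → ω' = ω)),
    ← Finset.mul_prod_erase Finset.univ _ (Finset.mem_univ r)]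
  have h2 : e8m μ (fun ω' => G ω' = G ω ∧ (r = r → ω' = ω)) = μ ω :=
    e8m_single μ _ ω ⟨rfl, fun _ => rfl⟩ fun ω' h3 => h3.2 rfl
  have h3 : ∏ r' ∈ Finset.univ.erase r, e8m μ (fun ω' => G ω' = G ω ∧ (r' = r → ω' = ω)) =
      (e8m μ (fun ω' => G ω' = G ω)) ^ S := by
    have h4 : ∀ r' ∈ Finset.univ.erase r, e8m μ (fun ω' => G ω' = G ω ∧ (r' = r → ω' = ω)) =
        e8m μ (fun ω' => G ω' = G ω) := by
      intro r' hr'
      refine e8m_congr μ _ _ fun ω' => ?_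
      exact ⟨fun h5 => h5.1, fun h5 => ⟨h5, fun h6 => absurd h6 (Finset.ne_of_mem_erase hr')⟩⟩
    rw [Finset.prod_congr rfl h4, Finset.prod_const, Finset.card_erase_of_mem
      (Finset.mem_univ r), Finset.card_univ, Fintype.card_fin, Nat.add_sub_cancel]
  rw [h2, h3]
  by_cases hP : e8m μ (fun ω' => G ω' = G ω) = 0
  · have h5 := e1_le_pr μ G hμ ω
    rw [e8m_pr, hP] at h5
    have h6 : μ ω = 0 := le_antisymm h5 (hμ ω)
    rw [h6, zero_mul, zero_div]
  · rw [mul_div_assoc, div_self (pow_ne_zero _ hP), mul_one]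

theorem e8_prG {Ω γ : Type} [Fintype Ω] (μ : Ω → ℝ) (hμ : ∀ ω, 0 ≤ μ ω) (G : Ω → γ) (S : ℕ)
    (r0 : Fin (S + 1)) (w : Fin (S + 1) → Ω) (hw : e8cop μ G S w ≠ 0) :
    pr (e8cop μ G S) (fun w => G (w r0)) w = pr μ G (w 0) := by
  obtain ⟨s1, s2⟩ := e8_supp μ G S w hw
  have h1 : e8m (e8cop μ G S) (fun w' => G (w' r0) = G (w r0)) = e8m (e8cop μ G S)
      (fun w' => (∀ _ : Fin (S + 1), True) ∧ G (w' 0) = G (w 0)) := by
    refine e8m_supp _ _ _ fun w' hw' => ?_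
    rw [(e8_supp μ G S w' hw').1 r0, s1 r0]
    exact ⟨fun h => ⟨fun _ => trivial, h⟩, fun h => h.2⟩
  rw [e8m_pr, h1, e8_sum μ G S (G (w 0)) (fun _ _ => True)]
  have h2 : e8m μ (fun ω => G ω = G (w 0) ∧ True) = pr μ G (w 0) := by
    rw [e8m_pr]
    exact e8m_congr μ _ _ fun ω => ⟨fun h => h.1, fun h => ⟨h, trivial⟩⟩
  have h3 : e8m μ (fun ω => G ω = G (w 0)) = pr μ G (w 0) := (e8m_pr μ G (w 0)).symm
  have hP := e1_pr_pos μ G hμ (w 0) (s2 0)
  rw [h2, h3, Finset.prod_const, Finset.card_univ, Fintype.card_fin, pow_succ, mul_comm,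
    mul_div_assoc, div_self (pow_ne_zero _ hP.ne'), mul_one]

theorem e8_prF {Ω α γ : Type} [Fintype Ω] (μ : Ω → ℝ) (G : Ω → γ) (S : ℕ)
    (f : Fin (S + 1) → Ω → α) (r0 : Fin (S + 1)) (w : Fin (S + 1) → Ω)
    (hw : e8cop μ G S w ≠ 0) :
    pr (e8cop μ G S) (fun w => ((fun r => f r (w r)), G (w r0))) w =
      (∏ r, pr μ (fun ω => (f r ω, G ω)) (w r)) / (pr μ G (w 0)) ^ S := by
  obtain ⟨s1, s2⟩ := e8_supp μ G S w hw
  have h1 : e8m (e8cop μ G S) (fun w' => ((fun r => f r (w' r)), G (w' r0)) =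
      ((fun r => f r (w r)), G (w r0))) = e8m (e8cop μ G S)
      (fun w' => (∀ r, f r (w' r) = f r (w r)) ∧ G (w' 0) = G (w 0)) := by
    refine e8m_supp _ _ _ fun w' hw' => ?_
    rw [(e8_supp μ G S w' hw').1 r0, s1 r0]
    constructor
    · intro h4
      exact ⟨fun r => congrFun (congrArg Prod.fst h4) r, congrArg Prod.snd h4⟩
    · intro h3
      exact Prod.ext (funext h3.1) h3.2
  rw [e8m_pr, h1, e8_sum μ G S (G (w 0)) (fun r ω => f r ω = f r (w r)),
    ← e8m_pr μ G (w 0)]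
  congr 1
  refine Finset.prod_congr rfl fun r _ => ?_
  rw [e8m_pr]
  refine e8m_congr μ _ _ fun ω => ?_
  rw [s1 r]
  constructor
  · intro h5
    exact Prod.ext h5.2 h5.1
  · intro h6
    exact ⟨congrArg Prod.snd h6, congrArg Prod.fst h6⟩

theorem e8_ind {Ω α γ : Type} [Fintype Ω] (μ : Ω → ℝ) (hμ : ∀ ω, 0 ≤ μ ω) (G : Ω → γ) (S : ℕ)
    (f : Fin (S + 1) → Ω → α) (r0 : Fin (S + 1)) :
    CH (e8cop μ G S) (fun w => fun r => f r (w r)) (fun w => G (w r0)) =
      ∑ r, CH μ (f r) G := by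
  have h1 : CH (e8cop μ G S) (fun w => fun r => f r (w r)) (fun w => G (w r0)) =
      ∑ w : Fin (S + 1) → Ω, ∑ r, e8cop μ G S w * (Real.logb 2 (pr μ G (w r)) -
        Real.logb 2 (pr μ (fun ω => (f r ω, G ω)) (w r))) := by
    unfold CH
    refine Finset.sum_congr rfl fun w _ => ?_
    rw [← Finset.mul_sum]
    by_cases h0 : e8cop μ G S w = 0
    · rw [h0, zero_mul, zero_mul]
    · obtain ⟨s1, s2⟩ := e8_supp μ G S w h0
      rw [e8_prG μ hμ G S r0 w h0, e8_prF μ G S f r0 w h0]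
      have hP := e1_pr_pos μ G hμ (w 0) (s2 0)
      have ha : ∀ r ∈ (Finset.univ : Finset (Fin (S + 1))),
          pr μ (fun ω => (f r ω, G ω)) (w r) ≠ 0 := fun r _ =>
        (e1_pr_pos μ (fun ω => (f r ω, G ω)) hμ (w r) (s2 r)).ne'
      rw [Real.logb_div (Finset.prod_ne_zero_iff.2 ha) (pow_ne_zero _ hP.ne'),
        Real.logb_prod _ _ ha, Real.logb_pow, Finset.sum_sub_distrib]
      have h3 : ∑ r, Real.logb 2 (pr μ G (w r)) = ((S : ℝ) + 1) * Real.logb 2 (pr μ G (w 0)) := by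
        have h4 : ∀ r ∈ (Finset.univ : Finset (Fin (S + 1))), Real.logb 2 (pr μ G (w r)) =
            Real.logb 2 (pr μ G (w 0)) := fun r _ => by
          rw [e1_pr_atom μ G (w r) (w 0) (s1 r)]
        rw [Finset.sum_congr rfl h4, Finset.sum_const, Finset.card_univ, Fintype.card_fin,
          nsmul_eq_mul]
        push_cast
        ring
      rw [h3]
      ring
  rw [h1, Finset.sum_comm]
  refine Finset.sum_congr rfl fun r _ => ?_
  have h2 := Pool.Agent.Helper70.RK.e5_sum (fun w : Fin (S + 1) → Ω => w r) (e8cop μ G S)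
    (fun ω => Real.logb 2 (pr μ G ω) - Real.logb 2 (pr μ (fun ω => (f r ω, G ω)) ω))
  rw [← h2, e8_push μ hμ G S r]
  rfl

theorem e8_symm {Ω γ : Type} [Fintype Ω] (μ : Ω → ℝ) (G : Ω → γ) (S : ℕ)
    (e : Equiv.Perm (Fin (S + 1))) (w : Fin (S + 1) → Ω) :
    e8cop μ G S (fun r => w (e r)) = e8cop μ G S w := by
  classical
  unfold e8cop
  by_cases h : ∀ r, G (w r) = G (w 0)
  · have h2 : ∀ r, G (w (e r)) = G (w (e 0)) := fun r => (h _).trans (h _).symm
    rw [if_pos h, if_pos h2, Equiv.prod_comp e (fun r => μ (w r)),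
      e1_pr_atom μ G (w (e 0)) (w 0) (h _)]
  · have h2 : ¬ ∀ r, G (w (e r)) = G (w (e 0)) := by
      intro h2
      refine h fun r => ?_
      have h3 := h2 (e.symm r)
      have h4 := h2 (e.symm 0)
      rw [Equiv.apply_symm_apply] at h3 h4
      exact h3.trans h4.symm
    rw [if_neg h, if_neg h2]

theorem e8_push_symm {Ω γ : Type} [Fintype Ω] (μ : Ω → ℝ) (G : Ω → γ) (S : ℕ)
    (e : Equiv.Perm (Fin (S + 1))) :
    push (fun w : Fin (S + 1) → Ω => fun r => w (e r)) (e8cop μ G S) = e8cop μ G S := by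
  classical
  funext w
  unfold push
  rw [Finset.sum_eq_single (fun r => w (e.symm r))]
  · have h1 : (fun r => (fun r => w (e.symm r)) (e r)) = w := by
      funext r
      simp
    rw [if_pos h1]
    exact e8_symm μ G S e.symm w
  · intro w' _ hne
    rw [if_neg]
    intro h
    refine hne ?_
    funext r
    rw [← h]
    simp
  · intro h
    exact absurd (Finset.mem_univ _) h

theorem st_E8 : ST_E8 := by
  intro Ω γ _ μ G R hμ hR
  obtain ⟨S, rfl⟩ : ∃ S, R = S + 1 := ⟨R - 1, by omega⟩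
  refine ⟨Fin (S + 1) → Ω, inferInstance, e8cop μ G S, fun r w => w r, e8_nn μ hμ G S,
    e8_push μ hμ G S, fun w hw r => (e8_supp μ G S w hw).2 r, ?_, ?_, ?_⟩
  · intro w hw r r'
    have h := (e8_supp μ G S w hw).1
    exact (h r).trans (h r').symm
  · intro α f r0
    exact e8_ind μ hμ G S f r0
  · intro α F e r0
    have h5 := (Pool.Agent.Helper70.RK.st_E5.1 (Fin (S + 1) → Ω) (Fin (S + 1) → Ω) α γ
      (e8cop μ G S) (fun w => fun r => w (e r)) (fun w => F (fun r => w r)) (fun w => G (w r0))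
      (e8_nn μ hμ G S)).2.2
    rw [e8_push_symm μ G S e] at h5
    rw [h5]
    refine e2_CH_congr _ _ _ _ _ ?_ ?_
    · intro w w' hw hw'
      have a1 := (e8_supp μ G S w hw).1
      have a2 := (e8_supp μ G S w' hw').1
      rw [a1 r0, a2 r0, a1 (e r0), a2 (e r0)]
    · intro w w' hw hw'
      have a1 := (e8_supp μ G S w hw).1
      have a2 := (e8_supp μ G S w' hw').1
      rw [a1 r0, a2 r0, a1 (e r0), a2 (e r0)]

end

end Pool.Agent.Helper69.RK
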