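import Pool.Agent.Helper97.RK.Stmts

set_option autoImplicit false

namespace Pool.Agent.Helper97.RK

/-- the integral square roots -/
noncomputable def extra_Y (g : ℤ) : Finset ℤ := (Finset.Icc (-|g|) |g|).filter (fun y => y ^ 2 = g)

lemma extra_mem_Y (g y : ℤ) : y ∈ extra_Y g ↔ y ^ 2 = g := by
  unfold extra_Y
  rw [Finset.mem_filter, Finset.mem_Icc]
  constructor
  · exact fun h => h.2
  · intro h
    refine ⟨?_, h⟩
    have h1 : |y| ≤ |g| := by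
      rw [← h, abs_pow]
      exact Int.le_self_sq |y|
    exact abs_le.mp h1

lemma extra_card_Y (g : ℤ) : (extra_Y g).card ≤ 2 := by
  by_cases h : (extra_Y g).Nonempty
  · obtain ⟨y0, hy0⟩ := h
    have hsub : extra_Y g ⊆ {y0, -y0} := by
      intro y hy
      rw [extra_mem_Y] at hy hy0
      have h2 : y ^ 2 = y0 ^ 2 := hy.trans hy0.symm
      rcases sq_eq_sq_iff_eq_or_eq_neg.mp h2 with h | h
      · simp [h]
      · simp [h]
    exact (Finset.card_le_card hsub).trans Finset.card_le_two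
  · rw [Finset.not_nonempty_iff_eq_empty.mp h]
    simp

/-- the integers in the box -/
noncomputable def extra_X (C n : ℕ) : Finset ℤ := Finset.Icc (-(C * n ^ 2 : ℤ)) (C * n ^ 2)

lemma extra_card_X (C n : ℕ) : (extra_X C n).card = 2 * C * n ^ 2 + 1 := by
  unfold extra_X
  rw [Int.card_Icc]
  have : (C * n ^ 2 : ℤ) + 1 - -(C * n ^ 2 : ℤ) = ((2 * C * n ^ 2 + 1 : ℕ) : ℤ) := by
    push_cast; ring
  rw [this, Int.toNat_natCast]

lemma extra_Ipt_le (C n : ℕ) (A B : ℤ) :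
    Ipt C n A B ≤ ∑ x ∈ extra_X C n, (extra_Y (x ^ 3 + A * x + B)).card := by
  unfold Ipt
  have h1 : {v : ℤ × ℤ | |v.1| ≤ C * n ^ 2 ∧ v.2 ^ 2 = v.1 ^ 3 + A * v.1 + B} ⊆
      (((extra_X C n).biUnion
        (fun x => (extra_Y (x ^ 3 + A * x + B)).image (fun y => (x, y))) :
          Finset (ℤ × ℤ)) : Set (ℤ × ℤ)) := by
    intro v hv
    rw [Set.mem_ofPred_eq] at hv
    rw [Finset.mem_coe, Finset.mem_biUnion]
    refine ⟨v.1, ?_, ?_⟩
    · unfold extra_X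
      rw [Finset.mem_Icc]
      exact abs_le.mp hv.1
    · rw [Finset.mem_image]
      exact ⟨v.2, (extra_mem_Y _ _).mpr hv.2, rfl⟩
  calc _ ≤ (((extra_X C n).biUnion
        (fun x => (extra_Y (x ^ 3 + A * x + B)).image (fun y => (x, y))) :
          Finset (ℤ × ℤ)) : Set (ℤ × ℤ)).ncard := Set.ncard_le_ncard h1 (Finset.finite_toSet _)
    _ = ((extra_X C n).biUnion
        (fun x => (extra_Y (x ^ 3 + A * x + B)).image (fun y => (x, y)))).card :=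
          Set.ncard_coe_finset _
    _ ≤ ∑ x ∈ extra_X C n, ((extra_Y (x ^ 3 + A * x + B)).image (fun y => (x, y))).card :=
          Finset.card_biUnion_le
    _ ≤ ∑ x ∈ extra_X C n, (extra_Y (x ^ 3 + A * x + B)).card :=
          Finset.sum_le_sum (fun x _ => Finset.card_image_le)

/-- coefficients of the conic -/
def extra_a (k e2 x : ℤ) : ℤ := 9 * k ^ 2 + cX k e2 - x
def extra_b (k e3 : ℤ) : ℤ := -162 * k * e3
def extra_D (k e2 e4 : ℤ) : ℤ := 12 * e4 + (k ^ 2 + e2) ^ 2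
def extra_c (k e2 e3 e4 x : ℤ) : ℤ :=
  x ^ 3 - cX k e2 ^ 3 + 729 * e3 ^ 2 - 27 * extra_D k e2 e4 * (x - cX k e2)

lemma extra_id (k p e2 e3 e4 x : ℤ) :
    x ^ 3 + cA k p e2 e4 * x + cB k p e2 e3 e4 =
      extra_a k e2 x * p ^ 2 + extra_b k e3 * p + extra_c k e2 e3 e4 x := by
  unfold cA cB extra_a extra_b extra_c extra_D cY cX cA
  ring

lemma extra_mul {a b A B : ℤ} (h1 : |a| ≤ A) (h2 : |b| ≤ B) : |a * b| ≤ A * B := by
  rw [abs_mul]
  exact mul_le_mul h1 h2 (abs_nonneg _) ((abs_nonneg _).trans h1)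

lemma extra_add {a b A B : ℤ} (h1 : |a| ≤ A) (h2 : |b| ≤ B) : |a + b| ≤ A + B :=
  (abs_add_le a b).trans (add_le_add h1 h2)

lemma extra_sub {a b A B : ℤ} (h1 : |a| ≤ A) (h2 : |b| ≤ B) : |a - b| ≤ A + B :=
  (abs_sub a b).trans (add_le_add h1 h2)

/-- bounds for the coefficients -/
lemma extra_bounds (M N k e2 e3 e4 x : ℤ) (hM : 1 ≤ M) (hN : 1 ≤ N)
    (hk : |k| ≤ (M - 1) * N) (h2 : |e2| ≤ (M - 1) * N ^ 2) (h3 : |e3| ≤ (M - 1) * N ^ 3)
    (h4 : |e4| ≤ (M - 1) * N ^ 4) (hx : |x| ≤ (M - 1) * N ^ 2) :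
    |extra_a k e2 x| ≤ 4000 * M ^ 6 * N ^ 6 ∧ |extra_b k e3| ≤ 4000 * M ^ 6 * N ^ 6 ∧
      |extra_c k e2 e3 e4 x| ≤ 4000 * M ^ 6 * N ^ 6 := by
  have hmono : ∀ i j : ℕ, i ≤ 6 → j ≤ 6 → M ^ i * N ^ j ≤ M ^ 6 * N ^ 6 := by
    intro i j hi hj
    exact mul_le_mul (pow_le_pow_right₀ hM hi) (pow_le_pow_right₀ hN hj)
      (by positivity) (by positivity)
  have hM0 : 0 ≤ M - 1 := by linarith
  have hK : |k ^ 2 + e2| ≤ M ^ 2 * N ^ 2 := by
    have h5 := extra_add (extra_mul hk hk) h2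
    rw [← pow_two k] at h5
    refine h5.trans ?_
    have : 0 ≤ N ^ 2 := by positivity
    nlinarith
  have hk' : |k| ≤ M * N := hk.trans (by nlinarith)
  have hkk : |k ^ 2| ≤ M ^ 2 * N ^ 2 := by
    have h5 := extra_mul hk' hk'
    rw [← pow_two k] at h5
    refine h5.trans (le_of_eq ?_)
    ring
  have hcX : |cX k e2| ≤ 6 * (M ^ 2 * N ^ 2) := by
    unfold cX
    have h6 : |(-6 : ℤ)| ≤ 6 := by norm_num
    exact extra_mul h6 hK
  have hx' : |x| ≤ M ^ 2 * N ^ 2 := by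
    refine hx.trans ?_
    have h5 : 0 ≤ N ^ 2 := by positivity
    have h6 : M - 1 ≤ M ^ 2 := by nlinarith
    exact mul_le_mul_of_nonneg_right h6 h5
  have hxc : |x - cX k e2| ≤ 7 * (M ^ 2 * N ^ 2) := by
    refine (extra_sub hx' hcX).trans (le_of_eq ?_)
    ring
  have h3' : |e3| ≤ M * N ^ 3 := h3.trans (by
    have : 0 ≤ N ^ 3 := by positivity
    nlinarith)
  have h4' : |e4| ≤ M ^ 4 * N ^ 4 := by
    refine h4.trans ?_
    have : 0 ≤ N ^ 4 := by positivity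
    have h5 : M - 1 ≤ M ^ 4 := by
      have : M ^ 1 ≤ M ^ 4 := pow_le_pow_right₀ hM (by norm_num)
      rw [pow_one] at this
      linarith
    exact mul_le_mul_of_nonneg_right h5 this
  have hD : |extra_D k e2 e4| ≤ 13 * (M ^ 4 * N ^ 4) := by
    unfold extra_D
    have h12 : |(12 : ℤ)| ≤ 12 := by norm_num
    have h5 := extra_add (extra_mul h12 h4') (extra_mul hK hK)
    rw [← pow_two (k ^ 2 + e2)] at h5
    refine h5.trans (le_of_eq ?_)
    ring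
  refine ⟨?_, ?_, ?_⟩
  · unfold extra_a
    have h9 : |(9 : ℤ)| ≤ 9 := by norm_num
    have h5 := extra_sub (extra_add (extra_mul h9 hkk) hcX) hx'
    refine h5.trans ?_
    have h6 := hmono 2 2 (by norm_num) (by norm_num)
    have h7 : 0 ≤ M ^ 6 * N ^ 6 := by positivity
    linarith
  · unfold extra_b
    have h162 : |(-162 : ℤ)| ≤ 162 := by norm_num
    have h5 := extra_mul (extra_mul h162 hk') h3'
    refine h5.trans ?_
    have h6 := hmono 2 4 (by norm_num) (by norm_num)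
    have h7 : 0 ≤ M ^ 6 * N ^ 6 := by positivity
    have h8 : 162 * (M * N) * (M * N ^ 3) = 162 * (M ^ 2 * N ^ 4) := by ring
    rw [h8]
    linarith
  · unfold extra_c
    have h729 : |(729 : ℤ)| ≤ 729 := by norm_num
    have h27 : |(27 : ℤ)| ≤ 27 := by norm_num
    have hx3 : |x ^ 3| ≤ (M ^ 2 * N ^ 2) ^ 3 := by
      rw [abs_pow]
      exact pow_le_pow_left₀ (abs_nonneg x) hx' 3
    have hc3 : |cX k e2 ^ 3| ≤ (6 * (M ^ 2 * N ^ 2)) ^ 3 := by
      rw [abs_pow]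
      exact pow_le_pow_left₀ (abs_nonneg _) hcX 3
    have he3 : |e3 ^ 2| ≤ (M * N ^ 3) ^ 2 := by
      rw [abs_pow]
      exact pow_le_pow_left₀ (abs_nonneg _) h3' 2
    have h5 := extra_sub (extra_add (extra_sub hx3 hc3) (extra_mul h729 he3))
      (extra_mul (extra_mul h27 hD) hxc)
    refine h5.trans ?_
    have h6 := hmono 2 6 (by norm_num) (by norm_num)
    have h7 : 0 ≤ M ^ 6 * N ^ 6 := by positivity
    have h8 : (M ^ 2 * N ^ 2) ^ 3 + (6 * (M ^ 2 * N ^ 2)) ^ 3 + 729 * (M * N ^ 3) ^ 2 +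
        27 * (13 * (M ^ 4 * N ^ 4)) * (7 * (M ^ 2 * N ^ 2)) =
        2674 * (M ^ 6 * N ^ 6) + 729 * (M ^ 2 * N ^ 6) := by ring
    rw [h8]
    linarith

open Polynomial in
/-- the exceptional abscissae -/
lemma extra_bad (k e2 e3 e4 : ℤ) : ∃ S : Finset ℤ, S.card ≤ 5 ∧ ∀ x : ℤ, x ∉ S →
    extra_a k e2 x ≠ 0 ∧
    extra_b k e3 ^ 2 - 4 * extra_a k e2 x * extra_c k e2 e3 e4 x ≠ 0 := by
  obtain ⟨al, hal⟩ : ∃ al : ℤ, al = 9 * k ^ 2 + cX k e2 := ⟨_, rfl⟩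
  obtain ⟨ga, hga⟩ : ∃ ga : ℤ, ga = - cX k e2 ^ 3 + 729 * e3 ^ 2 +
    27 * extra_D k e2 e4 * cX k e2 := ⟨_, rfl⟩
  obtain ⟨de, hde⟩ : ∃ de : ℤ, de = extra_D k e2 e4 := ⟨_, rfl⟩
  obtain ⟨be, hbe⟩ : ∃ be : ℤ, be = extra_b k e3 := ⟨_, rfl⟩
  let P : ℤ[X] := C 4 * X ^ 4 + C (-4 * al) * X ^ 3 + C (-108 * de) * X ^ 2 +
    C (108 * al * de + 4 * ga) * X + C (be ^ 2 - 4 * al * ga)
  have hdeg : P.natDegree = 4 := by
    simp only [P]
    compute_degree!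
  have hP0 : P ≠ 0 := by
    intro h
    rw [h, natDegree_zero] at hdeg
    omega
  classical
  refine ⟨insert al P.roots.toFinset, ?_, ?_⟩
  · have h1 := Finset.card_insert_le al P.roots.toFinset
    have h2 := Multiset.toFinset_card_le P.roots
    have h3 := P.card_roots'
    omega
  · intro x hx
    rw [Finset.mem_insert, not_or] at hx
    refine ⟨?_, ?_⟩
    · intro h
      apply hx.1
      unfold extra_a at h
      rw [hal]
      linarith
    · intro h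
      apply hx.2
      rw [Multiset.mem_toFinset, mem_roots hP0]
      have h1 : P.eval x = extra_b k e3 ^ 2 - 4 * extra_a k e2 x * extra_c k e2 e3 e4 x := by
        simp only [P, eval_add, eval_mul, eval_C, eval_pow, eval_X]
        unfold extra_a extra_c
        rw [← hal, ← hde, ← hbe]
        rw [← hde] at hga
        rw [hga]
        ring
      unfold IsRoot
      rw [h1, h]

lemma extra_good (C C' n : ℕ) (hC : C ≤ C') (P : Finset ℤ)
    (hP : ∀ p ∈ P, |p| ≤ C * n ^ 2) (a b c : ℤ)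
    (hfin : {v : ℤ × ℤ | |v.1| ≤ C' * n ^ 2 ∧ v.2 ^ 2 = a * v.1 ^ 2 + b * v.1 + c}.Finite) :
    ∑ p ∈ P, (extra_Y (a * p ^ 2 + b * p + c)).card ≤
      {v : ℤ × ℤ | |v.1| ≤ C' * n ^ 2 ∧ v.2 ^ 2 = a * v.1 ^ 2 + b * v.1 + c}.ncard := by
  classical
  rw [← Finset.card_sigma]
  have hinj : Function.Injective (fun s : (_ : ℤ) × ℤ => ((s.1, s.2) : ℤ × ℤ)) := by
    rintro ⟨s1, s2⟩ ⟨t1, t2⟩ h
    simp only [Prod.mk.injEq] at h
    obtain ⟨h1, h2⟩ := h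
    subst h1
    subst h2
    rfl
  rw [← Finset.card_image_of_injective _ hinj, ← Set.ncard_coe_finset]
  refine Set.ncard_le_ncard ?_ hfin
  intro v hv
  rw [Finset.mem_coe, Finset.mem_image] at hv
  obtain ⟨s, hs, rfl⟩ := hv
  rw [Finset.mem_sigma] at hs
  rw [Set.mem_ofPred_eq]
  refine ⟨?_, (extra_mem_Y _ _).mp hs.2⟩
  refine (hP s.1 hs.1).trans ?_
  have h1 : (C : ℤ) ≤ C' := by exact_mod_cast hC
  exact mul_le_mul_of_nonneg_right h1 (by positivity)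

theorem st_EXTRA (h : ST_CONIC) : ST_EXTRA := by
  intro ε hε C
  obtain ⟨D, hD, hD2⟩ := h ε hε (4000 * (C + 1) ^ 6)
  refine ⟨(2 * C + 1) * (D + 10), by positivity, ?_⟩
  intro n hn k e2 e3 e4 hk h2 h3 h4 P hP
  obtain ⟨S, hS, hS2⟩ := extra_bad k e2 e3 e4
  have hCC : C ≤ 4000 * (C + 1) ^ 6 := by
    have h1 : C + 1 ≤ (C + 1) ^ 6 := Nat.le_self_pow (by norm_num) _
    omega
  have hPX : P ⊆ extra_X C n := by
    intro p hp
    unfold extra_X
    rw [Finset.mem_Icc]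
    exact abs_le.mp (hP p hp)
  have hPc : P.card ≤ 2 * C * n ^ 2 + 1 := by
    rw [← extra_card_X]
    exact Finset.card_le_card hPX
  have hrow : ∀ x ∈ extra_X C n,
      (∑ p ∈ P, ((extra_Y (x ^ 3 + cA k p e2 e4 * x + cB k p e2 e3 e4)).card : ℝ)) ≤
        D * (n : ℝ) ^ ε + (if x ∈ S then (2 * (2 * C * n ^ 2 + 1) : ℝ) else 0) := by
    intro x hx
    unfold extra_X at hx
    rw [Finset.mem_Icc] at hx
    have hx1 : |x| ≤ (C * n ^ 2 : ℤ) := abs_le.mpr hx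
    by_cases hxS : x ∈ S
    · rw [if_pos hxS]
      have h5 : (∑ p ∈ P, ((extra_Y (x ^ 3 + cA k p e2 e4 * x + cB k p e2 e3 e4)).card : ℝ)) ≤
          ∑ p ∈ P, (2 : ℝ) :=
        Finset.sum_le_sum (fun p _ => by exact_mod_cast extra_card_Y _)
      rw [Finset.sum_const, nsmul_eq_mul] at h5
      have h6 : (P.card : ℝ) ≤ 2 * C * n ^ 2 + 1 := by exact_mod_cast hPc
      have h7 : 0 ≤ D * (n : ℝ) ^ ε := mul_nonneg hD.le (Real.rpow_nonneg (Nat.cast_nonneg n) ε)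
      linarith
    · rw [if_neg hxS, add_zero]
      obtain ⟨ha, hd⟩ := hS2 x hxS
      have hN : (1 : ℤ) ≤ n := by exact_mod_cast hn
      have hM : (1 : ℤ) ≤ (C : ℤ) + 1 := by
        have : (0 : ℤ) ≤ C := Int.natCast_nonneg C
        linarith
      have hCM : ((C : ℤ) + 1) - 1 = C := by ring
      obtain ⟨hba, hbb, hbc⟩ := extra_bounds ((C : ℤ) + 1) n k e2 e3 e4 x hM hN
        (by rw [hCM]; exact hk) (by rw [hCM]; exact h2) (by rw [hCM]; exact h3)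
        (by rw [hCM]; exact h4) (by rw [hCM]; exact hx1)
      have hcast : ((4000 * (C + 1) ^ 6 : ℕ) : ℤ) * (n : ℤ) ^ 6 =
          4000 * ((C : ℤ) + 1) ^ 6 * (n : ℤ) ^ 6 := by push_cast; ring
      obtain ⟨hfin, hcard⟩ := hD2 n hn (extra_a k e2 x) (extra_b k e3) (extra_c k e2 e3 e4 x)
        (by rw [hcast]; exact hba) (by rw [hcast]; exact hbb) (by rw [hcast]; exact hbc) ha hd
      refine le_trans ?_ hcard
      have h5 := extra_good C (4000 * (C + 1) ^ 6) n hCC P hP (extra_a k e2 x) (extra_b k e3)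
        (extra_c k e2 e3 e4 x) hfin
      have h6 : ∑ p ∈ P, (extra_Y (x ^ 3 + cA k p e2 e4 * x + cB k p e2 e3 e4)).card =
          ∑ p ∈ P, (extra_Y (extra_a k e2 x * p ^ 2 + extra_b k e3 * p +
            extra_c k e2 e3 e4 x)).card :=
        Finset.sum_congr rfl (fun p _ => by rw [extra_id])
      rw [← h6] at h5
      exact_mod_cast h5
  have hsum : ∑ p ∈ P, (Ipt C n (cA k p e2 e4) (cB k p e2 e3 e4) : ℝ) ≤
      ∑ x ∈ extra_X C n,
        ∑ p ∈ P, ((extra_Y (x ^ 3 + cA k p e2 e4 * x + cB k p e2 e3 e4)).card : ℝ) := by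
    rw [Finset.sum_comm]
    refine Finset.sum_le_sum (fun p _ => ?_)
    have h5 := extra_Ipt_le C n (cA k p e2 e4) (cB k p e2 e3 e4)
    exact_mod_cast h5
  refine (hsum.trans (Finset.sum_le_sum hrow)).trans ?_
  rw [Finset.sum_add_distrib, Finset.sum_const, extra_card_X, nsmul_eq_mul]
  have hbadsum : ∑ x ∈ extra_X C n, (if x ∈ S then (2 * (2 * C * n ^ 2 + 1) : ℝ) else 0) ≤
      5 * (2 * (2 * C * n ^ 2 + 1)) := by
    rw [← Finset.sum_filter, Finset.sum_const, nsmul_eq_mul]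
    have h5 : ((extra_X C n).filter (fun x => x ∈ S)).card ≤ 5 := by
      refine le_trans (Finset.card_le_card ?_) hS
      intro x hx
      exact (Finset.mem_filter.mp hx).2
    have h6 : (((extra_X C n).filter (fun x => x ∈ S)).card : ℝ) ≤ 5 := by exact_mod_cast h5
    exact mul_le_mul_of_nonneg_right h6 (by positivity)
  have hn1 : (1 : ℝ) ≤ n := by exact_mod_cast hn
  have hn0 : (0 : ℝ) < n := by linarith
  have hpow : (n : ℝ) ^ (2 + ε) = (n : ℝ) ^ 2 * (n : ℝ) ^ ε := by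
    rw [Real.rpow_add hn0]
    congr 1
    exact_mod_cast Real.rpow_natCast (n : ℝ) 2
  have hne : (1 : ℝ) ≤ (n : ℝ) ^ ε := Real.one_le_rpow hn1 hε.le
  have hn2 : (1 : ℝ) ≤ (n : ℝ) ^ 2 := one_le_pow₀ hn1
  rw [hpow]
  have hX : ((2 * C * n ^ 2 + 1 : ℕ) : ℝ) ≤ (2 * C + 1) * (n : ℝ) ^ 2 := by
    push_cast
    nlinarith
  have hX' : (2 * C * (n : ℝ) ^ 2 + 1) ≤ (2 * C + 1) * (n : ℝ) ^ 2 := by nlinarith
  have hA0 : 0 ≤ (2 * (C : ℝ) + 1) * (n : ℝ) ^ 2 := by positivity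
  have h8 : ((2 * C * n ^ 2 + 1 : ℕ) : ℝ) * (D * (n : ℝ) ^ ε) ≤
      (2 * C + 1) * (n : ℝ) ^ 2 * (D * (n : ℝ) ^ ε) :=
    mul_le_mul_of_nonneg_right hX (by positivity)
  have h9 : 5 * (2 * (2 * C * (n : ℝ) ^ 2 + 1)) ≤
      10 * ((2 * C + 1) * (n : ℝ) ^ 2 * (n : ℝ) ^ ε) := by
    have : (2 * (C : ℝ) + 1) * (n : ℝ) ^ 2 ≤ (2 * C + 1) * (n : ℝ) ^ 2 * (n : ℝ) ^ ε :=
      le_mul_of_one_le_right hA0 hne
    linarith
  have h10 : (2 * (C : ℝ) + 1) * (D + 10) * ((n : ℝ) ^ 2 * (n : ℝ) ^ ε) =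
      (2 * C + 1) * (n : ℝ) ^ 2 * (D * (n : ℝ) ^ ε) +
        10 * ((2 * C + 1) * (n : ℝ) ^ 2 * (n : ℝ) ^ ε) := by ring
  rw [h10]
  linarith

end Pool.Agent.Helper97.RK
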